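import Pool.Agent.W927.Code
import Pool.Agent.W927.BM.Own

/-!
The free part of the shift space is a Polish space with a free Borel action of `ℤ^d`; equivariant
maps into the subshift of a labelling problem are the same thing as labellings.
-/

namespace Pool.Agent.X224.SF

open MeasureTheory Topology
open Pool.Agent.W927
open Pool.Agent.W927.BM (LCLP FreeBorel)

theorem continuous_shift {d : ℕ} {A : Type} [TopologicalSpace A] (g : Fin d → ℤ) :
    Continuous (shift g : Conf d A → Conf d A) :=
  continuous_pi fun h => continuous_apply (h + g)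

/-- A countable intersection of open sets of a Polish space is a Polish space. -/
theorem polish_inter {Y : Type} [TopologicalSpace Y] [PolishSpace Y] {ι : Type} [Countable ι]
    (U : ι → Set Y) (hU : ∀ i, IsOpen (U i)) (p : Y → Prop) (hp : ∀ y, p y ↔ ∀ i, y ∈ U i) :
    PolishSpace {y : Y // p y} := by
  have : ∀ i, PolishSpace (U i) := fun i => (hU i).polishSpace
  let f : {y : Y // p y} → Y × (∀ i, U i) := fun y => (y.1, fun i => ⟨y.1, (hp y.1).1 y.2 i⟩)
  have hf : Continuous f := by
    refine Continuous.prodMk continuous_subtype_val (continuous_pi fun i => ?_)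
    exact Continuous.subtype_mk continuous_subtype_val _
  have hind : IsInducing f := by
    have h1 : IsInducing (Prod.fst ∘ f) := IsInducing.subtypeVal
    exact IsInducing.of_comp hf continuous_fst h1
  have hinj : Function.Injective f := by
    intro x y h
    exact Subtype.ext (congrArg Prod.fst h)
  have hcl : IsClosed (Set.range f) := by
    have : Set.range f = ⋂ i, {z : Y × (∀ i, U i) | ((z.2 i : U i) : Y) = z.1} := by
      ext z
      simp only [Set.mem_range, Set.mem_iInter, Set.mem_ofPred_eq]
      constructor
      · rintro ⟨y, rfl⟩ i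
        rfl
      · intro h
        have h1 : p z.1 := (hp _).2 fun i => by rw [← h i]; exact (z.2 i).2
        refine ⟨⟨z.1, h1⟩, ?_⟩
        refine Prod.ext rfl (funext fun i => Subtype.ext ?_)
        exact (h i).symm
    rw [this]
    refine isClosed_iInter fun i => isClosed_eq ?_ continuous_fst
    exact continuous_subtype_val.comp ((continuous_apply i).comp continuous_snd)
  have he : IsClosedEmbedding f := ⟨⟨hind, hinj⟩, hcl⟩
  have : PolishSpace (Y × (∀ i, U i)) := {}
  exact he.polishSpace

instance polish_freePart (d : ℕ) : PolishSpace (FreePart d) := by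
  have : PolishSpace (Conf d Bool) := {}
  refine polish_inter (ι := {g : Fin d → ℤ // g ≠ 0}) (fun g => {x | shift g.1 x ≠ x})
    (fun g => isOpen_ne_fun (continuous_shift g.1) continuous_id) _ ?_
  intro x
  constructor
  · intro h g
    exact h g.1 g.2
  · intro h g hg
    exact h ⟨g, hg⟩

theorem shift_add {d : ℕ} {A : Type} (g h : Fin d → ℤ) (x : Conf d A) :
    shift (g + h) x = shift g (shift h x) := by
  funext k
  simp only [shift]
  rw [add_assoc]

theorem shift_zero {d : ℕ} {A : Type} (x : Conf d A) : shift 0 x = x := by
  funext k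
  simp only [shift, add_zero]

/-- The shift action on the free part. -/
def act {d : ℕ} (g : Fin d → ℤ) (x : FreePart d) : FreePart d :=
  ⟨shift g x.1, fun h hh e => x.2 h hh (by
    have h1 : shift (-g) (shift h (shift g x.1)) = shift (-g) (shift g x.1) := by rw [e]
    rw [← shift_add, ← shift_add, ← shift_add, neg_add_cancel, shift_zero] at h1
    rw [show -g + h + g = h by abel] at h1
    exact h1)⟩

theorem act_zero {d : ℕ} (x : FreePart d) : act 0 x = x := Subtype.ext (shift_zero _)

theorem act_add {d : ℕ} (g h : Fin d → ℤ) (x : FreePart d) : act (g + h) x = act g (act h x) :=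
  Subtype.ext (shift_add _ _ _)

theorem continuous_act {d : ℕ} (g : Fin d → ℤ) : Continuous (act g) :=
  Continuous.subtype_mk ((continuous_shift g).comp continuous_subtype_val) _

/-- The action by homeomorphisms. -/
def actH {d : ℕ} (g : Fin d → ℤ) : FreePart d ≃ₜ FreePart d where
  toFun := act g
  invFun := act (-g)
  left_inv x := by rw [← act_add, neg_add_cancel, act_zero]
  right_inv x := by rw [← act_add, add_neg_cancel, act_zero]
  continuous_toFun := continuous_act g
  continuous_invFun := continuous_act (-g)

theorem act_free {d : ℕ} : FreeBorel (act (d := d)) := by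
  refine ⟨act_zero, act_add, fun g => (continuous_act g).measurable, ?_⟩
  intro g x h
  by_contra hg
  exact x.2 g hg (congrArg Subtype.val h)

/-- The subshift of a labelling problem. -/
def sub {d : ℕ} (P : LCLP (Fin d → ℤ)) : Set (Conf d (Fin P.k)) :=
  {s | ∀ g, (fun s' : Conf d (Fin P.k) => (fun σ : P.W => s' σ.1) ∈ P.A) (shift g s)}

theorem isSFT_sub {d : ℕ} (P : LCLP (Fin d → ℤ)) : IsSFT (sub P) := by
  refine isSFT_of_window P.W (fun s' => (fun σ : P.W => s' σ.1) ∈ P.A) ?_
  intro s s' h hs
  have : (fun σ : P.W => s' σ.1) = fun σ : P.W => s σ.1 := by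
    funext σ
    exact (h σ.1 σ.2).symm
  rw [this]
  exact hs

/-- A labelling gives an equivariant map. -/
theorem equiv_of_lab {d : ℕ} {P : LCLP (Fin d → ℤ)} {f : FreePart d → Fin P.k}
    (hf : P.IsLabelling act f) : IsEquivMap (sub P) (fun x g => f (act g x)) := by
  refine ⟨?_, ?_⟩
  · intro x g
    change (fun σ : P.W => f (act (σ.1 + g) x)) ∈ P.A
    have h1 := hf (act g x)
    have h2 : (fun σ : P.W => f (act (σ.1 + g) x)) = fun σ : P.W => f (act σ.1 (act g x)) := by
      funext σ
      rw [act_add]
    rw [h2]
    exact h1
  · intro g x y hy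
    funext h
    have h1 : y = act g x := Subtype.ext hy
    change f (act h y) = f (act (h + g) x)
    rw [h1, act_add]

/-- Baire measurable labellings give Baire measurable equivariant maps. -/
theorem hasBaire_sub {d : ℕ} {P : LCLP (Fin d → ℤ)} (hP : P.InBaire) : HasBaire (sub P) := by
  obtain ⟨f, hf, hlab⟩ := hP (FreePart d) act act_free
  refine ⟨fun x g => f (act g x), equiv_of_lab hlab, ?_⟩
  have key : @Measurable _ _ (eventuallyMeasurableSpace (borel (FreePart d)) (residual _)) _
      (fun (x : FreePart d) (g : Fin d → ℤ) => f (act g x)) := by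
    refine @measurable_pi_lambda _ _ _ (eventuallyMeasurableSpace (borel (FreePart d)) (residual _))
      _ _ fun g => ?_
    refine @measurable_to_countable' _ _ _ _ (eventuallyMeasurableSpace (borel (FreePart d))
      (residual _)) _ fun i => ?_
    exact (hf i).preimage (continuous_act g) (actH g).isOpenMap
  intro B hB
  exact key hB

end Pool.Agent.X224.SF
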